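import Pool.Agent.Lib.MP_b12932_pr.Defs
import Pool.Agent.Lib.MP_b12932_pr.Main

/-!
# The seed distance of two independent uniformly random trees tends to one

For two independent uniformly random labelled trees `T_k, R_k` on `k` vertices,
`E δ(T_k, R_k) → 1`, with `E δ(T_k, R_k) ≥ 1 - 2·10¹¹ k^(-1/5)` for all `k ≥ 2`.  The first item says
that the limit defining the seed distance exists.
-/

set_option autoImplicit false

open Filter Topology
open Pool.Agent.MP_b12932_pr

namespace Pool.Agent.Results.MP_b12932_pr.RandomSeeds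

theorem result :
    (∀ k : ℕ, 2 ≤ k → ∀ S T : SimpleGraph (Fin k), S.IsTree → T.IsTree →
      Tendsto (fun j : ℕ => paTV S T j) atTop (𝓝 (seedDist S T))) ∧
    Tendsto (fun k : ℕ => expSeedDist k) atTop (𝓝 1) ∧
    ∀ k : ℕ, 2 ≤ k → 1 - 2 * 10 ^ 11 * (k : ℝ) ^ (-(1 / 5) : ℝ) ≤ expSeedDist k :=
  ⟨fun _ hk _ _ hS hT => tendsto_paTV hS hT hk, tendsto_expSeedDist, fun _ hk => expSeedDist_rate hk⟩

end Pool.Agent.Results.MP_b12932_pr.RandomSeeds
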